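import Pool.Agent.Q267.E8.Stm

set_option autoImplicit false

namespace Pool.Agent.Q153.E8

open Finset Pool.Agent.Q267.CDE Pool.Agent.Q267.MW Pool.Agent.Q267.E8

theorem sum_sel (M : ℕ) (P : ℕ → Prop) [DecidablePred P] (s : Finset ℕ) (f : ℕ → ℤ)
    (h : ∀ j, (j ≤ M ∧ P j) ↔ j ∈ s) :
    ∑ j ∈ range (M + 1), (if P j then f j else 0) = ∑ j ∈ s, f j := by
  rw [← Finset.sum_filter]
  congr 1
  ext j
  rw [Finset.mem_filter, Finset.mem_range, Nat.lt_succ_iff]
  exact h j

theorem ae1 : S_AE1 := by
  intro q hq
  have hN : ((8 * q) / 2 : ℕ) = 4 * q := by omega
  constructor
  · unfold A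
    rw [sum_sel (4 * q) _ {q, 3 * q} (fun j => ((4 * q).choose j : ℤ))]
    · rw [Finset.sum_pair (by omega)]
      rw [← Nat.choose_symm_of_eq_add (show 4 * q = q + 3 * q by ring)]
      ring
    · intro j
      rw [hN]
      simp only [Finset.mem_insert, Finset.mem_singleton]
      constructor
      · rintro ⟨h1, c, hc⟩
        push_cast at hc
        have h2 : ((j : ℤ) - q) = 2 * q * c := by linarith
        have h3 : -1 < c := by
          by_contra h
          push Not at h
          nlinarith
        have h4 : c < 2 := by
          by_contra h
          push Not at h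
          nlinarith
        interval_cases c
        · left; omega
        · right; omega
      · rintro (rfl | rfl)
        · refine ⟨by omega, 0, ?_⟩
          push_cast
          ring
        · refine ⟨by omega, 1, ?_⟩
          push_cast
          ring
  · unfold A
    rw [sum_sel (3 * (4 * q)) _ {q, 3 * q, 5 * q, 7 * q, 9 * q, 11 * q}
      (fun j => ((3 * (4 * q)).choose j : ℤ))]
    · rw [Finset.sum_insert, Finset.sum_insert, Finset.sum_insert, Finset.sum_insert,
        Finset.sum_pair (by omega)]
      · have e1 : 3 * (4 * q) = 12 * q := by ring
        rw [e1]
        rw [← Nat.choose_symm_of_eq_add (show 12 * q = q + 11 * q by ring),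
          ← Nat.choose_symm_of_eq_add (show 12 * q = 3 * q + 9 * q by ring),
          ← Nat.choose_symm_of_eq_add (show 12 * q = 5 * q + 7 * q by ring)]
        ring
      all_goals
        simp only [Finset.mem_insert, Finset.mem_singleton]
        omega
    · intro j
      rw [hN]
      simp only [Finset.mem_insert, Finset.mem_singleton]
      constructor
      · rintro ⟨h1, c, hc⟩
        push_cast at hc
        have h2 : ((j : ℤ) - 5 * q) = 2 * q * c := by linarith
        have h3 : -3 < c := by
          by_contra h
          push Not at h
          nlinarith
        have h4 : c < 4 := by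
          by_contra h
          push Not at h
          nlinarith
        interval_cases c <;> omega
      · rintro (rfl | rfl | rfl | rfl | rfl | rfl)
        · refine ⟨by omega, -2, ?_⟩
          push_cast
          ring
        · refine ⟨by omega, -1, ?_⟩
          push_cast
          ring
        · refine ⟨by omega, 0, ?_⟩
          push_cast
          ring
        · refine ⟨by omega, 1, ?_⟩
          push_cast
          ring
        · refine ⟨by omega, 2, ?_⟩
          push_cast
          ring
        · refine ⟨by omega, 3, ?_⟩
          push_cast
          ring

end Pool.Agent.Q153.E8
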