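import Pool.Agent.Q267.E8.Stm2

set_option autoImplicit false

namespace Pool.Agent.Q153.E8

open Finset Pool.Agent.Q267.CDE Pool.Agent.Q267.MW Pool.Agent.Q267.E8

theorem df_aux (p m : ℕ) [hp : Fact p.Prime] (hpm : p = 2 * m + 1) (k : ℕ) (hk : k ≤ m) :
    (-1) ^ k * (((m + k).choose k : ℕ) : R p) = ((m.choose k : ℕ) : R p) *
      (1 + p * lift p (2 * ∑ j ∈ range k, (2 * (j : ZMod p) + 1)⁻¹)) := by
  induction k with
  | zero =>
    have h1 : (p : R p) * lift p (2 * ∑ j ∈ range 0, (2 * (j : ZMod p) + 1)⁻¹) = p * 0 := by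
      apply p_mul_eq
      rw [red_lift, map_zero, Finset.sum_range_zero, mul_zero]
    rw [h1]
    simp
  | succ k ih =>
    have ih' := ih (by omega)
    obtain ⟨n, hn⟩ : ∃ n, m = k + (n + 1) := ⟨m - k - 1, by omega⟩
    have u1 : IsUnit (((k + 1 : ℕ) : ℕ) : R p) := isUnit_nat p (k + 1) (by omega) (by omega)
    have u2 : IsUnit (((2 : ℕ) : ℕ) : R p) := isUnit_nat p 2 (by omega) (by omega)
    have c1 : ((2 * k + 1 : ℕ) : ZMod p) ≠ 0 := cast_ne p _ (by omega) (by omega)
    have hL : (p : R p) * ((2 * (k : R p) + 1) * lift p (2 * ∑ j ∈ range (k + 1), (2 * (j : ZMod p) + 1)⁻¹)) =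
        p * ((2 * (k : R p) + 1) * lift p (2 * ∑ j ∈ range k, (2 * (j : ZMod p) + 1)⁻¹) + 2) := by
      apply p_mul_eq
      simp only [map_mul, red_lift, map_add, map_natCast, map_one, map_ofNat]
      rw [Finset.sum_range_succ]
      push_cast at c1
      field_simp
    set L := lift p (2 * ∑ j ∈ range k, (2 * (j : ZMod p) + 1)⁻¹)
    set L' := lift p (2 * ∑ j ∈ range (k + 1), (2 * (j : ZMod p) + 1)⁻¹)
    have k1 : ((k + 1 : ℕ) : R p) * (((m + (k + 1)).choose (k + 1) : ℕ) : R p) =
        ((m : R p) + k + 1) * (((m + k).choose k : ℕ) : R p) := by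
      have h2 := congrArg (Nat.cast : ℕ → R p) (Nat.add_one_mul_choose_eq (m + k) k)
      rw [show m + (k + 1) = m + k + 1 by ring]
      push_cast at h2 ⊢
      linear_combination -h2
    have k2 : ((k + 1 : ℕ) : R p) * ((m.choose (k + 1) : ℕ) : R p) =
        ((n : R p) + 1) * ((m.choose k : ℕ) : R p) := by
      have := Nat.choose_succ_right_eq m k
      rw [show m - k = n + 1 by omega] at this
      have h2 := congrArg (Nat.cast : ℕ → R p) this
      push_cast at h2 ⊢
      linear_combination h2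
    have hpc : (p : R p) = 2 * m + 1 := by
      have h2 := congrArg (Nat.cast : ℕ → R p) hpm
      push_cast at h2
      exact h2
    have hmn : (m : R p) = k + (n + 1) := by
      have h2 := congrArg (Nat.cast : ℕ → R p) hn
      push_cast at h2
      exact h2
    have hsq := p_sq p
    apply (u1.mul u2).mul_left_cancel
    rw [pow_succ (-1 : R p) k]
    push_cast at k1 k2 ⊢
    have e1 : 2 * ((n : R p) + 1) = p - (2 * k + 1) := by linear_combination -hpc - 2 * hmn
    have e2 : 2 * ((m : R p) + k + 1) = p + (2 * k + 1) := by linear_combination -hpc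
    set P : R p := (p : R p)
    set A : R p := ((m.choose k : ℕ) : R p)
    set B : R p := (((m + k).choose k : ℕ) : R p)
    set A' : R p := ((m.choose (k + 1) : ℕ) : R p)
    set B' : R p := (((m + (k + 1)).choose (k + 1) : ℕ) : R p)
    set s : R p := (-1) ^ k
    linear_combination (-2 * s) * k1 - 2 * (1 + P * L') * k2 - s * B * e2 - A * (1 + P * L') * e1 -
      (P + (2 * k + 1)) * ih' + A * hL - A * (L + L') * hsq

theorem df : S_DF := by
  intro p m k hp hpm hk
  have h := df_aux p m hpm k hk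
  have h2 : (p : R p) * lift p (2 * (∑ j ∈ range k, (2 * (j : ZMod p) + 1)⁻¹) * ((m.choose k : ℕ) : ZMod p) ^ 2) =
      p * (lift p (2 * ∑ j ∈ range k, (2 * (j : ZMod p) + 1)⁻¹) * ((m.choose k : ℕ) : R p) ^ 2) := by
    apply p_mul_eq
    simp only [map_mul, map_pow, red_lift, map_natCast]
  rw [h2]
  linear_combination ((m.choose k : ℕ) : R p) * h

end Pool.Agent.Q153.E8
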