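import Pool.Agent.Q267.E8.Stm

set_option autoImplicit false

namespace Pool.Agent.Q153.E8

open Finset Pool.Agent.Q267.CDE Pool.Agent.Q267.MW Pool.Agent.Q267.E8

theorem hd : S_HD := by
  intro p m l hp hpm hl
  induction l with
  | zero => simp [H_zero]
  | succ l ih =>
    have h0 := ih (by omega)
    have hpz : ((p : ℕ) : ZMod p) = 0 := ZMod.natCast_self p
    have e1 : ((2 * l + 1 : ℕ) : ZMod p) ≠ 0 := cast_ne p _ (by omega) (by omega)
    have e2 : ((l + 1 : ℕ) : ZMod p) ≠ 0 := cast_ne p _ (by omega) (by omega)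
    have e3 : ((m - l : ℕ) : ZMod p) ≠ 0 := cast_ne p _ (by omega) (by omega)
    have e4 : (2 : ZMod p) ≠ 0 := by
      have h7 : 2 < p := by omega
      have : ((2 : ℕ) : ZMod p) ≠ 0 := cast_ne p 2 (by norm_num) h7
      exact_mod_cast this
    have e5 : 2 * ((m - l : ℕ) : ZMod p) = -((2 * l + 1 : ℕ) : ZMod p) := by
      have : ((2 * (m - l) + (2 * l + 1) : ℕ) : ZMod p) = 0 := by
        rw [show 2 * (m - l) + (2 * l + 1) = p by omega, hpz]
      push_cast at this ⊢
      linear_combination this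
    have h1 : H (ZMod p) (2 * (l + 1)) = H (ZMod p) (2 * l) + ((2 * l + 1 : ℕ) : ZMod p)⁻¹ +
        (2 * ((l + 1 : ℕ) : ZMod p))⁻¹ := by
      rw [show 2 * (l + 1) = 2 * l + 1 + 1 by ring, H_succ, H_succ]
      push_cast
      ring_nf
    have h2 : H (ZMod p) (m - l) = H (ZMod p) (m - (l + 1)) + ((m - l : ℕ) : ZMod p)⁻¹ := by
      conv_lhs => rw [show m - l = (m - (l + 1)) + 1 by omega, H_succ]
      congr 2
      have : ((m - (l + 1) + 1 : ℕ) : ZMod p) = ((m - l : ℕ) : ZMod p) := by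
        rw [show m - (l + 1) + 1 = m - l by omega]
      rw [← this]
      push_cast
      ring
    have h3 : H (ZMod p) (l + 1) = H (ZMod p) l + ((l + 1 : ℕ) : ZMod p)⁻¹ := by
      rw [H_succ]
      push_cast
      ring
    have h4 : ((2 * l + 1 : ℕ) : ZMod p)⁻¹ * 2 = -((m - l : ℕ) : ZMod p)⁻¹ := by
      have h5 : ((2 * l + 1 : ℕ) : ZMod p) = -(2 * ((m - l : ℕ) : ZMod p)) := by
        rw [e5, neg_neg]
      rw [h5]
      field_simp
    have h6 : 2 * (2 * ((l + 1 : ℕ) : ZMod p))⁻¹ = ((l + 1 : ℕ) : ZMod p)⁻¹ := by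
      field_simp
    rw [h1, h3]
    linear_combination h0 + h4 + h6 + h2

end Pool.Agent.Q153.E8
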