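import Pool.Agent.Q267.E8.Stm2

set_option autoImplicit false

namespace Pool.Agent.Q153.E8

open Finset Pool.Agent.Q267.CDE Pool.Agent.Q267.MW Pool.Agent.Q267.E8

theorem fact_unit (p k : ℕ) [hp : Fact p.Prime] (hk : k < p) : IsUnit ((k.factorial : ℕ) : R p) := by
  apply isUnit_of_red
  rw [red_nat, Ne, ZMod.natCast_eq_zero_iff, hp.out.dvd_factorial]
  omega

theorem choose_bR (p n k : ℕ) [hp : Fact p.Prime] (hk : k < p) : ((n.choose k : ℕ) : R p) = bR p n k := by
  have h1 : ∏ i ∈ range k, ((n : R p) - (i : R p)) = ((k.factorial : ℕ) : R p) * ((n.choose k : ℕ) : R p) := by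
    rw [← descPochhammer_eval_eq_prod_range, descPochhammer_eval_eq_descFactorial,
      Nat.descFactorial_eq_factorial_mul_choose, Nat.cast_mul]
  unfold bR
  rw [h1, mul_comm ((k.factorial : ℕ) : R p), mul_assoc, ZMod.mul_inv_of_unit _ (fact_unit p k hk), mul_one]

theorem pg : S_PG := by
  intro p n hp x y c hn hx hy
  have hsub : range (n + 1) ⊆ range p := Finset.range_subset_range.mpr (by omega)
  rw [Finset.sum_subset hsub (f := fun k => (-1) ^ k * ((n.choose k : ℕ) : R p) * bR p y k)]
  · unfold T2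
    refine Finset.sum_congr rfl fun k hk => ?_
    rw [Finset.mem_range] at hk
    rw [choose_bR p n k hk, hx, hy, mul_assoc]
    congr 1
    unfold bR
    have h1 : (∏ i ∈ range k, (x + p * c - (i : R p))) * (∏ i ∈ range k, (x - p * c - (i : R p))) =
        (∏ i ∈ range k, (x - (i : R p))) ^ 2 := by
      rw [← Finset.prod_mul_distrib, ← Finset.prod_pow]
      refine Finset.prod_congr rfl fun i _ => ?_
      linear_combination (-c ^ 2) * p_sq p
    linear_combination ((((k.factorial : ℕ) : R p)⁻¹) ^ 2) * h1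
  · intro k _ hk
    rw [Finset.mem_range, not_lt] at hk
    rw [Nat.choose_eq_zero_of_lt (by omega)]
    simp

end Pool.Agent.Q153.E8
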